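import Pool.Agent.H47.KS.Targets

/-!
# Row FAP of the board `ksu_modules` (MP_90d669_co)
-/

set_option autoImplicit false

namespace Pool.Agent.H35.KSU

open Finset Pool.Agent.H47.KS

theorem pf_FAP : T_FAP := by
  intro s x M hx
  classical
  let D := (Fintype.piFinset (fun _ : Fin s => Finset.Icc (0 : ℤ) M)) ×ˢ
    ((Fintype.piFinset (fun _ : Fin s => Finset.Icc (-(M : ℤ)) M)) ×ˢ
      (Fintype.piFinset (fun _ : Fin s => Finset.Icc (-1 : ℤ) 1)))
  let Φ : (Fin s → ℤ) × (Fin s → ℤ) × (Fin s → ℤ) → Finset ℤ := fun q =>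
    (univ : Finset (Fin s)).biUnion (fun i => prog (q.1 i) (q.2.1 i) (q.2.2 i) x)
  refine ⟨D.image Φ, ?_, ?_⟩
  · rintro T ⟨b, g, c, hc, rfl⟩ hT
    have hm : ∀ i : Fin s, ∀ t : ℕ, t < x → b i + g i * (t : ℤ) + c i * C2 (t : ℤ) ∈
        Finset.Icc (0 : ℤ) M := by
      intro i t ht
      apply hT
      rw [Finset.mem_biUnion]
      refine ⟨i, Finset.mem_univ _, ?_⟩
      unfold prog
      rw [Finset.mem_image]
      exact ⟨t, Finset.mem_range.2 ht, rfl⟩
    have h0 : ∀ i, 0 ≤ b i ∧ b i ≤ M := by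
      intro i
      have h := hm i 0 (by omega)
      have e : b i + g i * ((0 : ℕ) : ℤ) + c i * C2 ((0 : ℕ) : ℤ) = b i := by
        unfold C2
        simp
      rw [e, Finset.mem_Icc] at h
      exact h
    have h1 : ∀ i, 0 ≤ b i + g i ∧ b i + g i ≤ M := by
      intro i
      have h := hm i 1 (by omega)
      have e : b i + g i * ((1 : ℕ) : ℤ) + c i * C2 ((1 : ℕ) : ℤ) = b i + g i := by
        unfold C2
        simp
      rw [e, Finset.mem_Icc] at h
      exact h
    rw [Finset.mem_image]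
    refine ⟨(b, g, c), ?_, rfl⟩
    simp only [D, Finset.mem_product, Fintype.mem_piFinset, Finset.mem_Icc]
    refine ⟨fun i => h0 i, fun i => ?_, fun i => ?_⟩
    · have a := h0 i
      have a' := h1 i
      constructor <;> omega
    · exact abs_le.1 (hc i)
  · refine Finset.card_image_le.trans ?_
    have e1 : (Fintype.piFinset (fun _ : Fin s => Finset.Icc (0 : ℤ) M)).card = (M + 1) ^ s := by
      rw [Fintype.card_piFinset]
      simp
    have e2 : (Fintype.piFinset (fun _ : Fin s => Finset.Icc (-(M : ℤ)) M)).card =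
        (2 * M + 1) ^ s := by
      rw [Fintype.card_piFinset, Finset.prod_const, Int.card_Icc, Finset.card_univ,
        Fintype.card_fin]
      congr 1
      omega
    have e3 : (Fintype.piFinset (fun _ : Fin s => Finset.Icc (-1 : ℤ) 1)).card = 3 ^ s := by
      rw [Fintype.card_piFinset, Finset.prod_const, Int.card_Icc, Finset.card_univ,
        Fintype.card_fin]
      rfl
    simp only [D]
    rw [Finset.card_product, Finset.card_product, e1, e2, e3, mul_pow, ← pow_mul, mul_comm 2 s,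
      pow_mul, sq]
    have h4 : (M + 1) ^ s ≤ (2 * M + 1) ^ s := Nat.pow_le_pow_left (by omega) s
    calc (M + 1) ^ s * ((2 * M + 1) ^ s * 3 ^ s)
        ≤ (2 * M + 1) ^ s * ((2 * M + 1) ^ s * 3 ^ s) := Nat.mul_le_mul_right _ h4
      _ = 3 ^ s * ((2 * M + 1) ^ s * (2 * M + 1) ^ s) := by ring

end Pool.Agent.H35.KSU
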